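import Pool.Agent.J6H44.P2.Stm
import Pool.Agent.Q277.LC.Kha
import Pool.Agent.Q66.LC.Jmp
import Pool.Agent.Q257.LC.KerU

/-!
# Project P2: closeness of pairs and numbers of jumps in the plane (OMP2)
-/

set_option autoImplicit false
set_option linter.unusedSectionVars false
set_option linter.unusedVariables false

namespace Pool.Agent.J6H20.P2

open Finset Equiv Matrix Q292.LC
open Pool.Agent.Q277.LC (EE_sum EE_clo close_le kha_mom choose_lb)
open Pool.Agent.Q68.LC (EE_congr EE_const EE_add EE_smul EE_mono EE_succ)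

/-- sum of `1 / (1 + s δ)` -/
theorem sum_one (δ : ℝ) (hδ : 0 < δ) (N : ℕ) (hN : 1 ≤ N) :
    δ * ∑ s ∈ Finset.range N, 1 / (1 + (s : ℝ) * δ) ≤
      δ + Real.log (1 + ((N : ℝ) - 1) * δ) := by
  induction N, hN using Nat.le_induction with
  | base => simp
  | succ N hN ih =>
    rw [Finset.sum_range_succ, mul_add]
    have hN1 : (1 : ℝ) ≤ N := by exact_mod_cast hN
    obtain ⟨a, ha⟩ : ∃ a, a = 1 + ((N : ℝ) - 1) * δ := ⟨_, rfl⟩
    obtain ⟨b, hb⟩ : ∃ b, b = 1 + (N : ℝ) * δ := ⟨_, rfl⟩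
    have hab : b = a + δ := by rw [ha, hb]; ring
    have ha1 : 1 ≤ a := by
      rw [ha]
      have : 0 ≤ ((N : ℝ) - 1) * δ := mul_nonneg (by linarith) hδ.le
      linarith
    have hcast : (((N + 1 : ℕ) : ℝ) - 1) = N := by push_cast; ring
    rw [hcast, ← hb]
    rw [← ha] at ih
    have ha0 : 0 < a := by linarith
    have hb0 : 0 < b := by linarith
    have key : δ * (1 / b) ≤ Real.log b - Real.log a := by
      have h1 := Real.log_le_sub_one_of_pos (div_pos ha0 hb0)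
      rw [Real.log_div ha0.ne' hb0.ne'] at h1
      have h2 : a / b - 1 = -(δ * (1 / b)) := by
        rw [hab]; field_simp; ring
      linarith
    linarith

section torus

variable {d L : ℕ} [NeZero L]

/-- expected closeness in the plane -/
theorem clo2 : ∀ d : ℕ, d = 2 → ∃ C : ℕ, 1 ≤ C ∧ ∀ (L : ℕ) [NeZero L], 3 ≤ L →
    ∀ K H : ℕ, 1 ≤ K → K ≤ H * L ^ d → 1 + Real.log K ≤ H → ∃ q₀ : ℕ, ∀ q ≥ q₀,
    ∀ σ : ℕ → (Fin d → ZMod L) × Fin d, Per σ → ∀ δ : ℝ, 1 ≤ δ * q → δ * q ≤ 2 →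
    ∀ x y, x ≠ y →
    EE (K * (q * ms d L)) δ (fun ω => (clo σ (K * q) ω x y : ℝ)) ≤ ((C * H : ℕ) : ℝ) * q := by
  intro d hd
  obtain ⟨C, hC1, hC⟩ := Pool.Agent.Q257.LC.fre d (by omega)
  refine ⟨⌈49 ^ d * C * 4⌉₊, ?_, ?_⟩
  · rw [Nat.one_le_ceil_iff]
    positivity
  intro L _ hL K H hK1 hKL hKH
  obtain ⟨q₀, hq₀⟩ := hC L hL K
  refine ⟨max q₀ 2, ?_⟩
  intro q hq σ hσ δ hδ1 hδ2 x y hxy
  have hqq : q₀ ≤ q := le_trans (le_max_left _ _) hq
  have hq2 : 2 ≤ q := le_trans (le_max_right _ _) hq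
  obtain ⟨f1, -, -⟩ := hq₀ q hqq σ hσ δ hδ1 hδ2
  have hqR : (2 : ℝ) ≤ q := by exact_mod_cast hq2
  have hδ0 : 0 < δ := by
    by_contra h
    push Not at h
    have : δ * q ≤ 0 := mul_nonpos_of_nonpos_of_nonneg h (by linarith)
    linarith
  have hδle : δ ≤ 1 := by nlinarith
  have hK1R : (1 : ℝ) ≤ K := by exact_mod_cast hK1
  have hH1 : (1 : ℝ) ≤ H := by
    have := Real.log_nonneg hK1R
    linarith
  have hn : K * q * ms d L ≤ K * (q * ms d L) := by rw [mul_assoc]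
  rw [EE_clo σ (K * q) _ δ hn x y]
  have hterm : ∀ s ∈ Finset.range (K * q), EE (s * ms d L) δ (fun ω =>
      if td (gp (ed ∘ σ) ω (s * ms d L) x) (gp (ed ∘ σ) ω (s * ms d L) y) ≤ 3 then (1 : ℝ)
        else 0) ≤ 49 ^ d * (C * (1 / (1 + (s : ℝ) * δ) + 1 / (L : ℝ) ^ d)) := by
    intro s hs
    rw [Finset.mem_range] at hs
    have hs0 : (0 : ℝ) ≤ (s : ℝ) * δ := by positivity
    have ha1 : 1 ≤ 1 + (s : ℝ) * δ := by linarith
    have hpow : (1 + (s : ℝ) * δ) ^ (-(d / 2 : ℝ)) = 1 / (1 + (s : ℝ) * δ) := by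
      have hd2 : -((d : ℝ) / 2) = -1 := by rw [hd]; norm_num
      rw [hd2, Real.rpow_neg_one, one_div]
    have hC0 : 0 ≤ C := by linarith
    have hS : ∀ x y, PP (ed ∘ σ) δ (s * ms d L) x y ≤
        C * (1 / (1 + (s : ℝ) * δ) + 1 / (L : ℝ) ^ d) := by
      intro x y
      refine le_trans (f1 s hs.le x y) ?_
      rw [hpow]
    exact close_le (ed ∘ σ) (s * ms d L) δ _ hδ0.le hδle hS (by positivity) x y hxy
  refine le_trans (Finset.sum_le_sum hterm) ?_
  rw [← Finset.mul_sum, ← Finset.mul_sum, Finset.sum_add_distrib, Finset.sum_const,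
    Finset.card_range, nsmul_eq_mul]
  have hLpos : (0 : ℝ) < (L : ℝ) ^ d := by
    have : (0 : ℝ) < L := by exact_mod_cast Nat.pos_of_ne_zero (NeZero.ne L)
    positivity
  have hsum : ∑ s ∈ Finset.range (K * q), 1 / (1 + (s : ℝ) * δ) ≤ 3 * H * q := by
    have hKq : 1 ≤ K * q := Nat.mul_pos hK1 (by omega)
    have h := sum_one δ hδ0 (K * q) hKq
    have hKqR : (1 : ℝ) ≤ ((K * q : ℕ) : ℝ) := by exact_mod_cast hKq
    have h2 : 1 + (((K * q : ℕ) : ℝ) - 1) * δ ≤ 3 * K := by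
      have : ((K * q : ℕ) : ℝ) * δ ≤ 2 * K := by
        push_cast
        nlinarith
      nlinarith
    have h3 : Real.log (1 + (((K * q : ℕ) : ℝ) - 1) * δ) ≤ 2 * H := by
      have h4 : 0 < 1 + (((K * q : ℕ) : ℝ) - 1) * δ := by
        have : 0 ≤ (((K * q : ℕ) : ℝ) - 1) * δ := mul_nonneg (by linarith) hδ0.le
        linarith
      have h5 := Real.log_le_log h4 h2
      rw [Real.log_mul (by norm_num) (by linarith)] at h5
      have h6 : Real.log 3 ≤ 2 := by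
        have := Real.log_le_sub_one_of_pos (show (0 : ℝ) < 3 by norm_num)
        linarith
      linarith
    have h7 : δ * ∑ s ∈ Finset.range (K * q), 1 / (1 + (s : ℝ) * δ) ≤ δ * (3 * H * q) := by
      have h8 : δ * (3 * H * q) = 3 * H * (δ * q) := by ring
      rw [h8]
      have h9 : 3 * (H : ℝ) ≤ 3 * H * (δ * q) := by nlinarith
      linarith
    exact le_of_mul_le_mul_left h7 hδ0
  have hKq : ((K * q : ℕ) : ℝ) * (1 / (L : ℝ) ^ d) ≤ H * q := by
    rw [mul_one_div, div_le_iff₀ hLpos]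
    have h1 : (K : ℝ) ≤ H * (L : ℝ) ^ d := by exact_mod_cast hKL
    push_cast
    nlinarith
  have hfin : ∑ s ∈ Finset.range (K * q), 1 / (1 + (s : ℝ) * δ) +
      ((K * q : ℕ) : ℝ) * (1 / (L : ℝ) ^ d) ≤ 4 * H * q := by linarith
  have hceil : 49 ^ d * C * 4 ≤ (⌈49 ^ d * C * 4⌉₊ : ℝ) := Nat.le_ceil _
  calc 49 ^ d * (C * (∑ s ∈ Finset.range (K * q), 1 / (1 + (s : ℝ) * δ) +
        ((K * q : ℕ) : ℝ) * (1 / (L : ℝ) ^ d)))
      ≤ 49 ^ d * (C * (4 * H * q)) := by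
        refine mul_le_mul_of_nonneg_left (mul_le_mul_of_nonneg_left hfin (by linarith)) (by positivity)
    _ = (49 ^ d * C * 4) * (H * q) := by ring
    _ ≤ (⌈49 ^ d * C * 4⌉₊ : ℝ) * (H * q) := mul_le_mul_of_nonneg_right hceil (by positivity)
    _ = ((⌈49 ^ d * C * 4⌉₊ * H : ℕ) : ℝ) * q := by push_cast; ring

/-- exponential tail of the closeness -/
theorem kha_gen {σ : ℕ → (Fin d → ZMod L) × Fin d} (hσ : Per σ) (C K q : ℕ) (hC1 : 1 ≤ C)
    (hq2 : 2 ≤ q) (δ : ℝ) (hδ0 : 0 < δ) (hδle : δ ≤ 1)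
    (hmain : ∀ x y, x ≠ y → EE (K * (q * ms d L)) δ (fun ω => (clo σ (K * q) ω x y : ℝ)) ≤
      (C : ℝ) * q) (x y : Fin d → ZMod L) (hxy : x ≠ y) (m : ℕ) :
    EE (K * (q * ms d L)) δ (fun ω => if 4 * C * m * q < clo σ (K * q) ω x y then (1 : ℝ) else 0) ≤
      (1 / 2) ^ m := by
  have hqR : (2 : ℝ) ≤ q := by exact_mod_cast hq2
  have hn : K * q * ms d L = K * (q * ms d L) := by rw [mul_assoc]
  rcases Nat.eq_zero_or_pos m with h0 | h0
  · subst h0
    rw [pow_zero]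
    have h1 : EE (K * (q * ms d L)) δ (fun ω => if 4 * C * 0 * q < clo σ (K * q) ω x y then
        (1 : ℝ) else 0) ≤ EE (K * (q * ms d L)) δ (fun _ => 1) := by
      refine EE_mono hδ0.le hδle fun ω => ?_
      split_ifs <;> norm_num
    rw [EE_const] at h1
    exact h1
  obtain ⟨B, hB⟩ : ∃ B : ℕ, B = C * q := ⟨_, rfl⟩
  have hB1 : 1 ≤ B := by
    rw [hB]
    exact Nat.mul_pos hC1 (by omega)
  have hBR : (B : ℝ) = C * q := by rw [hB]; push_cast; ring
  have hmom := kha_mom hσ (K * q) δ B hδ0.le hδle (by positivity) (by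
    intro x y hxy
    rw [hn, hBR]
    exact hmain x y hxy) m (K * q) le_rfl (K * (q * ms d L)) hn.le x y hxy
  have hch := choose_lb B m hB1 h0
  have hchp : (0 : ℝ) < ((4 * B * m).choose m : ℝ) := lt_of_lt_of_le (by
    have : (0 : ℝ) < ((2 * B : ℕ) : ℝ) := by exact_mod_cast (by omega : 0 < 2 * B)
    positivity) hch
  have h1 : EE (K * (q * ms d L)) δ (fun ω => if 4 * C * m * q < clo σ (K * q) ω x y then
      (1 : ℝ) else 0) ≤ EE (K * (q * ms d L)) δ (fun ω =>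
        1 / ((4 * B * m).choose m : ℝ) * ((clo σ (K * q) ω x y).choose m : ℝ)) := by
    refine EE_mono hδ0.le hδle fun ω => ?_
    split_ifs with hc
    · rw [one_div_mul_eq_div, one_le_div hchp]
      have h3 : 4 * B * m ≤ clo σ (K * q) ω x y := by
        have : 4 * B * m = 4 * C * m * q := by rw [hB]; ring
        omega
      exact_mod_cast Nat.choose_le_choose m h3
    · positivity
  refine le_trans h1 ?_
  rw [EE_smul]
  calc 1 / ((4 * B * m).choose m : ℝ) * EE (K * (q * ms d L)) δ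
        (fun ω => ((clo σ (K * q) ω x y).choose m : ℝ))
      ≤ 1 / ((4 * B * m).choose m : ℝ) * (B : ℝ) ^ m :=
        mul_le_mul_of_nonneg_left hmom (by positivity)
    _ ≤ 1 / ((2 * B : ℕ) : ℝ) ^ m * (B : ℝ) ^ m := by
        refine mul_le_mul_of_nonneg_right ?_ (by positivity)
        refine one_div_le_one_div_of_le ?_ hch
        have : (0 : ℝ) < ((2 * B : ℕ) : ℝ) := by exact_mod_cast (by omega : 0 < 2 * B)
        positivity
    _ = (1 / 2) ^ m := by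
        have hBp : (B : ℝ) ≠ 0 := by
          have : (0 : ℝ) < B := by exact_mod_cast hB1
          exact this.ne'
        rw [one_div_mul_eq_div, ← div_pow]
        congr 1
        push_cast
        field_simp

open Classical in
/-- union bound -/
theorem omp_gen (σ : ℕ → (Fin d → ZMod L) × Fin d) (CK K q ρ κ₀ : ℕ) (CJ δ : ℝ)
    (hδ0 : 0 < δ) (hδle : δ ≤ 1)
    (hJ : ∀ j < K, ∀ x, EE (K * (q * ms d L)) δ (fun ω => if ρ < jumps (ed ∘ σ) ω
      (j * (q * ms d L)) ((j + 1) * (q * ms d L)) x then (1 : ℝ) else 0) ≤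
      CJ * Real.exp (-(ρ : ℝ)))
    (hK : ∀ x y, x ≠ y → ∀ m : ℕ, EE (K * (q * ms d L)) δ (fun ω =>
      if CK * m * q < clo σ (K * q) ω x y then (1 : ℝ) else 0) ≤ (1 / 2) ^ m) :
    EE (K * (q * ms d L)) δ (fun ω => if Om σ q K ρ κ₀ ω then (0 : ℝ) else 1) ≤
      K * ((L : ℝ) ^ d * (CJ * Real.exp (-(ρ : ℝ)))) +
        (L : ℝ) ^ d * (L : ℝ) ^ d * (1 / 2) ^ (κ₀ / CK) := by
  have hcard : (Fintype.card (Fin d → ZMod L) : ℝ) = (L : ℝ) ^ d := by
    rw [Fintype.card_fun, Fintype.card_fin, ZMod.card]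
    push_cast
    rfl
  have hkd : ∀ ω : ℕ → Bool, (if Om σ q K ρ κ₀ ω then (0 : ℝ) else 1) ≤
      (∑ j ∈ Finset.range K, ∑ x : Fin d → ZMod L,
        if ρ < jumps (ed ∘ σ) ω (j * (q * ms d L)) ((j + 1) * (q * ms d L)) x then (1 : ℝ) else 0) +
      ∑ p : (Fin d → ZMod L) × (Fin d → ZMod L), if p.1 ≠ p.2 then
        (if CK * (κ₀ / CK) * q < clo σ (K * q) ω p.1 p.2 then (1 : ℝ) else 0) else 0 := by
    intro ω
    have hn1 : 0 ≤ ∑ j ∈ Finset.range K, ∑ x : Fin d → ZMod L,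
        (if ρ < jumps (ed ∘ σ) ω (j * (q * ms d L)) ((j + 1) * (q * ms d L)) x then (1 : ℝ)
          else 0) := by
      refine Finset.sum_nonneg fun j _ => Finset.sum_nonneg fun x _ => ?_
      split_ifs <;> norm_num
    have hn2 : 0 ≤ ∑ p : (Fin d → ZMod L) × (Fin d → ZMod L), (if p.1 ≠ p.2 then
        (if CK * (κ₀ / CK) * q < clo σ (K * q) ω p.1 p.2 then (1 : ℝ) else 0) else 0) := by
      refine Finset.sum_nonneg fun p _ => ?_
      split_ifs <;> norm_num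
    split_ifs with hOm
    · linarith
    unfold Om at hOm
    rw [not_and_or] at hOm
    rcases hOm with h | h
    · push Not at h
      obtain ⟨j, hj, a, ha⟩ := h
      have h1 : (1 : ℝ) ≤ ∑ j ∈ Finset.range K, ∑ x : Fin d → ZMod L,
          (if ρ < jumps (ed ∘ σ) ω (j * (q * ms d L)) ((j + 1) * (q * ms d L)) x then (1 : ℝ)
            else 0) := by
        have h2 : ∑ x : Fin d → ZMod L,
          (if ρ < jumps (ed ∘ σ) ω (j * (q * ms d L)) ((j + 1) * (q * ms d L)) x then (1 : ℝ)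
            else 0) ≤ ∑ j ∈ Finset.range K, ∑ x : Fin d → ZMod L,
          (if ρ < jumps (ed ∘ σ) ω (j * (q * ms d L)) ((j + 1) * (q * ms d L)) x then (1 : ℝ)
            else 0) := by
          refine Finset.single_le_sum (f := fun j => ∑ x : Fin d → ZMod L,
            (if ρ < jumps (ed ∘ σ) ω (j * (q * ms d L)) ((j + 1) * (q * ms d L)) x then (1 : ℝ)
            else 0)) (fun j _ => Finset.sum_nonneg fun x _ => by split_ifs <;> norm_num)
            (Finset.mem_range.2 hj)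
        refine le_trans ?_ h2
        have h3 : (if ρ < jumps (ed ∘ σ) ω (j * (q * ms d L)) ((j + 1) * (q * ms d L)) a then
          (1 : ℝ) else 0) ≤ ∑ x : Fin d → ZMod L,
          (if ρ < jumps (ed ∘ σ) ω (j * (q * ms d L)) ((j + 1) * (q * ms d L)) x then (1 : ℝ)
            else 0) := by
          refine Finset.single_le_sum (f := fun x =>
            (if ρ < jumps (ed ∘ σ) ω (j * (q * ms d L)) ((j + 1) * (q * ms d L)) x then (1 : ℝ)
            else 0)) (fun x _ => by split_ifs <;> norm_num) (Finset.mem_univ a)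
        rw [if_pos ha] at h3
        exact h3
      linarith
    · push Not at h
      obtain ⟨a, b, hab, hc⟩ := h
      have h3 : (if a ≠ b then
        (if CK * (κ₀ / CK) * q < clo σ (K * q) ω a b then (1 : ℝ) else 0) else 0) ≤
          ∑ p : (Fin d → ZMod L) × (Fin d → ZMod L), (if p.1 ≠ p.2 then
        (if CK * (κ₀ / CK) * q < clo σ (K * q) ω p.1 p.2 then (1 : ℝ) else 0) else 0) := by
        refine Finset.single_le_sum (f := fun p : (Fin d → ZMod L) × (Fin d → ZMod L) =>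
          (if p.1 ≠ p.2 then
        (if CK * (κ₀ / CK) * q < clo σ (K * q) ω p.1 p.2 then (1 : ℝ) else 0) else 0))
          (fun p _ => by split_ifs <;> norm_num) (Finset.mem_univ (a, b))
      have h4 : CK * (κ₀ / CK) * q < clo σ (K * q) ω a b := by
        refine lt_of_le_of_lt ?_ hc
        exact Nat.mul_le_mul_right _ (Nat.mul_div_le _ _)
      rw [if_pos hab, if_pos h4] at h3
      linarith
  have hE : EE (K * (q * ms d L)) δ (fun ω => if Om σ q K ρ κ₀ ω then (0 : ℝ) else 1) ≤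
      (∑ j ∈ Finset.range K, ∑ x : Fin d → ZMod L, CJ * Real.exp (-(ρ : ℝ))) +
      ∑ p : (Fin d → ZMod L) × (Fin d → ZMod L), (1 / 2 : ℝ) ^ (κ₀ / CK) := by
    refine le_trans (EE_mono hδ0.le hδle hkd) ?_
    rw [EE_add, EE_sum, EE_sum]
    refine add_le_add ?_ ?_
    · refine Finset.sum_le_sum fun j hj => ?_
      rw [EE_sum]
      exact Finset.sum_le_sum fun x _ => hJ j (Finset.mem_range.1 hj) x
    · refine Finset.sum_le_sum fun p _ => ?_
      by_cases hp : p.1 ≠ p.2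
      · have := hK p.1 p.2 hp (κ₀ / CK)
        simp only [if_pos hp]
        exact this
      · simp only [if_neg hp]
        rw [EE_const]
        positivity
  refine le_trans hE (le_of_eq ?_)
  simp only [Finset.sum_const, Finset.card_univ, Finset.card_range, nsmul_eq_mul,
    Fintype.card_prod]
  push_cast
  rw [hcard]

end torus

theorem omp2 : Pool.Agent.J6H44.P2.S_OMP2 := by
  classical
  intro d hd
  obtain ⟨CJ, hJ1, hJ2⟩ := Pool.Agent.Q66.LC.jmp d (by omega)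
  obtain ⟨C, hC1, hC2⟩ := clo2 d hd
  refine ⟨max ⌈CJ⌉₊ (4 * C), le_trans (by omega) (le_max_right _ _), ?_⟩
  intro L _ hL K H hK1 hKL hKH ρ κ₀
  obtain ⟨q₀, hq₀⟩ := hC2 L hL K H hK1 hKL hKH
  refine ⟨max (max q₀ 2) ⌈2 * CJ⌉₊, ?_⟩
  intro q hq σ hσ δ hδ1 hδ2
  have hqq : q₀ ≤ q := le_trans (le_trans (le_max_left _ _) (le_max_left _ _)) hq
  have hq2 : 2 ≤ q := le_trans (le_trans (le_max_right _ _) (le_max_left _ _)) hq
  have hqJ : 2 * CJ ≤ q := le_trans (Nat.le_ceil _)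
    (by exact_mod_cast le_trans (le_max_right _ _) hq)
  have hqR : (2 : ℝ) ≤ q := by exact_mod_cast hq2
  have hδ0 : 0 < δ := by
    by_contra h
    push Not at h
    have : δ * q ≤ 0 := mul_nonpos_of_nonpos_of_nonneg h (by linarith)
    linarith
  have hδle : δ ≤ 1 := by nlinarith
  have hCδ : CJ * δ ≤ 1 := by nlinarith
  have hLR : (1 : ℝ) ≤ L := by exact_mod_cast (by omega : 1 ≤ L)
  have hK1R : (1 : ℝ) ≤ K := by exact_mod_cast hK1
  have hH1R : (1 : ℝ) ≤ H := by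
    have := Real.log_nonneg hK1R
    linarith
  have hH1 : 1 ≤ H := by exact_mod_cast hH1R
  have hCH : 1 ≤ C * H := Nat.mul_pos hC1 hH1
  have hm := kha_gen hσ (C * H) K q hCH hq2 δ hδ0 hδle
    (fun x y hxy => hq₀ q hqq σ hσ δ hδ1 hδ2 x y hxy)
  have hE := omp_gen σ (4 * (C * H)) K q ρ κ₀ CJ δ hδ0 hδle (fun j hj x => by
    have := hJ2 L hL σ hσ q K j ρ δ x hδ0 hCδ hδ2 hj
    convert this) (fun x y hxy m => by
    have := hm x y hxy m
    convert this)
  refine le_trans (le_of_eq ?_) (le_trans hE ?_)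
  · congr 1
  have hM1 : CJ ≤ (max (⌈CJ⌉₊ : ℝ) ((4 * C : ℕ) : ℝ)) := le_trans (Nat.le_ceil _) (le_max_left _ _)
  have hM2 : (1 : ℝ) ≤ (max (⌈CJ⌉₊ : ℝ) ((4 * C : ℕ) : ℝ)) :=
    le_trans (by exact_mod_cast (by omega : 1 ≤ 4 * C)) (le_max_right _ _)
  have hKR : (K : ℝ) ≤ H * (L : ℝ) ^ d := by exact_mod_cast hKL
  have h2d : (L : ℝ) ^ (2 * d) = (L : ℝ) ^ d * (L : ℝ) ^ d := by rw [two_mul, pow_add]
  have hLd : (0 : ℝ) ≤ (L : ℝ) ^ d := by positivity
  have he : 0 ≤ Real.exp (-(ρ : ℝ)) := (Real.exp_pos _).le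
  have t1 : (K : ℝ) * ((L : ℝ) ^ d * (CJ * Real.exp (-(ρ : ℝ)))) ≤
      max (⌈CJ⌉₊ : ℝ) ((4 * C : ℕ) : ℝ) * (H * (L : ℝ) ^ (2 * d) * Real.exp (-(ρ : ℝ))) := by
    rw [h2d]
    calc (K : ℝ) * ((L : ℝ) ^ d * (CJ * Real.exp (-(ρ : ℝ))))
        ≤ H * (L : ℝ) ^ d * ((L : ℝ) ^ d * (CJ * Real.exp (-(ρ : ℝ)))) := by
          refine mul_le_mul_of_nonneg_right hKR (by positivity)
      _ = CJ * (H * ((L : ℝ) ^ d * (L : ℝ) ^ d) * Real.exp (-(ρ : ℝ))) := by ring
      _ ≤ _ := mul_le_mul_of_nonneg_right hM1 (by positivity)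
  have t2 : (L : ℝ) ^ d * (L : ℝ) ^ d * (1 / 2) ^ (κ₀ / (4 * (C * H))) ≤
      max (⌈CJ⌉₊ : ℝ) ((4 * C : ℕ) : ℝ) *
        ((L : ℝ) ^ (2 * d) * (1 / 2) ^ (κ₀ / (max ⌈CJ⌉₊ (4 * C) * H))) := by
    rw [h2d]
    have hp : (1 / 2 : ℝ) ^ (κ₀ / (4 * (C * H))) ≤ (1 / 2) ^ (κ₀ / (max ⌈CJ⌉₊ (4 * C) * H)) := by
      refine pow_le_pow_of_le_one (by norm_num) (by norm_num) ?_
      refine Nat.div_le_div_left ?_ (by omega)
      rw [← mul_assoc]
      exact Nat.mul_le_mul_right _ (le_max_right _ _)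
    calc (L : ℝ) ^ d * (L : ℝ) ^ d * (1 / 2) ^ (κ₀ / (4 * (C * H)))
        ≤ (L : ℝ) ^ d * (L : ℝ) ^ d * (1 / 2) ^ (κ₀ / (max ⌈CJ⌉₊ (4 * C) * H)) :=
          mul_le_mul_of_nonneg_left hp (by positivity)
      _ ≤ _ := by
          refine le_mul_of_one_le_left (by positivity) hM2
  have hcast : ((max ⌈CJ⌉₊ (4 * C) : ℕ) : ℝ) = max (⌈CJ⌉₊ : ℝ) ((4 * C : ℕ) : ℝ) := by
    push_cast
    rfl
  rw [hcast, mul_add]
  linarith

end Pool.Agent.J6H20.P2
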